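import Pool.Agent.N926.Div.Gordon

set_option autoImplicit false

namespace Pool.Agent.Results.MP_197ffd_nt.InfinitelyMany

/-- the set `S` of the integer `3 × 3` matrices with all entries of absolute value at least two, such that the
matrix and its entrywise square have determinant one -/
def S : Set (Matrix (Fin 3) (Fin 3) ℤ) :=
  {A | (∀ i j, 2 ≤ |A i j|) ∧ A.det = 1 ∧ (A.map fun x => x ^ 2).det = 1}

/-- the set `S` is infinite -/
theorem result : S.Infinite :=
  Pool.Agent.N926.Gordon.infinite

end Pool.Agent.Results.MP_197ffd_nt.InfinitelyMany
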